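import Pool.Agent.Helper73.E8.GS.Stmt

/-!
# MP_90bd9d_al: the integral points of a compact form of `E8` over `ℤ` do not act irreducibly on the Lie algebra

`H` is a commutative Hopf algebra of finite type over `ℤ`, `G = Spec H`. Hypotheses: over some faithfully flat `R` the Lie algebra of `G` is
the split Lie algebra `Chev R` of type `E8` (this holds for all reductive group schemes of type `E8` over `ℤ`, since they are split locally
for the étale topology), and `G(ℝ)` is compact (in the topology of pointwise convergence on `H`, which is its usual topology).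
Conclusion: `G(ℤ)` leaves a subspace `≠ 0, ≠ Lie(G)(ℝ)` of the real Lie algebra invariant, in the adjoint representation.
-/

set_option autoImplicit false

open Pool.Agent.Helper73.E8 Pool.Agent.Helper73.E8.GS

theorem Pool.Agent.Results.MP_90bd9d_al.NoIrreducibleForm.result (H : Type) [CommRing H] [HopfAlgebra ℤ H] [Algebra.FiniteType ℤ H]
    (R : Type) [CommRing R] [Module.FaithfullyFlat ℤ R] (hE8 : Nonempty (Lie ℤ H R ≃ₗ⁅R⁆ Chev R))
    (hc : IsCompact (Set.range fun g : H →ₐ[ℤ] ℝ => (g : H → ℝ))) :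
    ∃ W : Submodule ℝ (Lie ℤ H ℝ), W ≠ ⊥ ∧ W ≠ ⊤ ∧
      ∀ g : Pt ℤ H ℤ, ∀ D ∈ W, Lie.Ad (g.bc (Algebra.ofId ℤ ℝ)) D ∈ W :=
  Pool.Agent.Helper73.E8.GS.main' H R hE8 hc
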